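import Mathlib
import Pool.Agent.N846.DT.Main

/-!
# Spherical cusp forms on `PGL_n`: a density theorem for the violations of the Ramanujan conjecture, at every place

Let `n ≥ 2` and `ε > 0`, and for `0 ≤ δ < 1/2` let `dens(δ) = (1 - 2 δ) / max(1, 4 δ)`. For a spherical cusp form `φ` on
`PGL_n` over `ℚ` with Satake parameters `α_{i,p}` and Langlands parameters `μ_i` at the real place let
`θ_{φ,p} = max_i |log_p |α_{i,p}||` and `θ_{φ,∞} = max_i |Re μ_i|`. The conjecture says that all these numbers are `0`; it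
is known that they are at most `1/2 - 1/(n² + 1)`. We show that strong violations are rare, in **every** family of
spherical cusp forms, with constants which depend only on `n` and `ε`:

1. (real place) if every member of a set `S` of forms has a parameter `μ_k` with `|Re μ_k| ≥ δ` and imaginary part
   `γ_φ`, and `∏_{k,l} (1 + |(Im μ_k(φ) - γ_φ) - (Im μ_l(ψ) - γ_ψ)|) ≤ Q` for all `φ, ψ ∈ S`, then `S` is finite and has
   at most `A Q^{dens(δ) + ε}` elements;
2. (finite places) if `θ_{φ,p} ≥ δ` for all `φ ∈ S`, and `∏_{k,l} (1 + |Im μ_k(φ) - Im μ_l(ψ)|) ≤ Q` for all `φ, ψ ∈ S`,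
   then `S` has at most `A (p^{2 n²} Q)^{dens(δ) + ε}` elements;
3. among the forms with `|Im μ_k| ≤ T` for all `k` at most `A T^{(n² - 4)(dens(δ) + ε)}` have `θ_{φ,∞} ≥ δ` (`δ > 0`);
4. among the same forms at most `A (p² T)^{n² (dens(δ) + ε)}` have `θ_{φ,p} ≥ δ`, for every prime `p`;
5. if `n = 3`, the number of forms with an exceptional parameter, `|Re μ_k| ≥ δ > 0`, whose imaginary part lies in
   `[T - 1, T + 1]`, is at most `A (1 + |T|)^{4 (dens(δ) + ε)}`.

For `δ > 1/4` the exponent `dens(δ) = (1 - 2 δ) / (4 δ)` is smaller than `1/2`. So in 5. it is `(1 - 2 δ)/δ + 4 ε`, which is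
smaller than the exponent `3 - 4 δ` of Blomer's density theorem for the exceptional spectrum of `GL(3)` (from the Kuznetsov
formula) for all `δ > 1/4`; and for windows `Im μ = i T ν + O(1)` with generic `ν` the family has about `T^{n(n-1)/2}` members
while `Q ≪ T^{n(n-1)}` in 2., so for every `n ≥ 3` the violations with `δ > 1/4` at a given prime have density zero in such
windows, with a power saving.

The structure `SphericalFamily` lists what is used: for each form unitarity, the bounds of Jacquet and Shalika, and for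
`L(s, π × π~)` absolute convergence, continuation, growth and functional equation (the structure `SphericalCuspForm` of the
former results on this problem); for each two different forms that `L(s, π × π'~)` is entire, of polynomial growth in
vertical strips (not assumed to be uniform), and satisfies the functional equation (Jacquet, Piatetski-Shapiro, Shalika;
Moeglin, Waldspurger). No trace formula is used, and nothing on the size of the family.

The proof. Let `s_φ` be minus the exceptional parameter of `φ` (for a prime `p`: `p^{s_φ} = α_{i,p}`), so `Re s_φ ≥ δ`. For two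
different forms `L(s, π × π'~)` (for a prime `p`: without its Euler factor at `p`) vanishes at `s = s_φ + conj s_ψ`, a trivial
zero: the Gamma factors (the Euler factor) have a pole there. The smoothed sums
`∑_m a_{φ×ψ~}(m) m^{-s_φ - conj s_ψ} V(log(Y/m))` are, for every `m`, positive semidefinite in `(φ, ψ)`, and the term `m = 1`
is the matrix with all entries `1 + o(1)`; so the sum over all pairs is at least `|S|²/2`. On the other hand the terms
`φ ≠ ψ` are `≪ Q^{1/2 + σ + ε} Y^{-σ - 2δ}` for any `σ > 0` by shifting the line of integration past the zero, and the terms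
`φ = ψ` are `≪ Y^{1 - 2 δ} Q^ε`. With `Y = Q^{1+ε}` or `Y = Q^{1/(4 δ) + ε}` the theorem follows. The bound
`L(1 + η, π × π~) ≪ Q^ε` is obtained from a bound `Q^3` by comparing the series of the logarithm at `1 + η` and `1 + η/2`.
-/

set_option autoImplicit false

namespace Pool.Agent.Results.MP_fa98d2_nt.DensityTheorem

open Pool.Agent.N846.DT (SphericalFamily dens)

/-- **A density theorem for the violations of the Ramanujan conjecture by spherical cusp forms on `PGL_n`.** -/
theorem result {n : ℕ} (hn : 2 ≤ n) {ε : ℝ} (hε : 0 < ε) : ∃ A : ℝ, 0 < A ∧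
    ∀ (ι : Type) (α : ι → Nat.Primes → Fin n → ℂ) (μ : ι → Fin n → ℂ), SphericalFamily α μ →
      (∀ (δ Q : ℝ) (γ : ι → ℝ) (S : Set ι), 0 ≤ δ → 1 ≤ Q →
        (∀ f ∈ S, ∃ k, (μ f k).im = γ f ∧ δ ≤ |(μ f k).re|) →
        (∀ f ∈ S, ∀ g ∈ S, ∏ k, ∏ l, (1 + |((μ f k).im - γ f) - ((μ g l).im - γ g)|) ≤ Q) →
        S.Finite ∧ (S.ncard : ℝ) ≤ A * Q ^ (dens δ + ε)) ∧
      (∀ (p : Nat.Primes) (δ Q : ℝ) (S : Set ι), 0 ≤ δ → 1 ≤ Q →
        (∀ f ∈ S, ∃ k, δ ≤ |Real.logb ((p : ℕ) : ℝ) ‖α f p k‖|) →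
        (∀ f ∈ S, ∀ g ∈ S, ∏ k, ∏ l, (1 + |(μ f k).im - (μ g l).im|) ≤ Q) →
        S.Finite ∧ (S.ncard : ℝ) ≤ A * (((p : ℕ) : ℝ) ^ (2 * n ^ 2) * Q) ^ (dens δ + ε)) ∧
      (∀ δ T : ℝ, 0 < δ → 1 ≤ T →
        {f | (∀ k, |(μ f k).im| ≤ T) ∧ ∃ k, δ ≤ |(μ f k).re|}.Finite ∧
        ({f | (∀ k, |(μ f k).im| ≤ T) ∧ ∃ k, δ ≤ |(μ f k).re|}.ncard : ℝ) ≤
          A * T ^ (((n ^ 2 - 4 : ℕ) : ℝ) * (dens δ + ε))) ∧
      (∀ (p : Nat.Primes) (δ T : ℝ), 0 ≤ δ → 1 ≤ T →
        {f | (∀ k, |(μ f k).im| ≤ T) ∧ ∃ k, δ ≤ |Real.logb ((p : ℕ) : ℝ) ‖α f p k‖|}.Finite ∧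
        ({f | (∀ k, |(μ f k).im| ≤ T) ∧ ∃ k, δ ≤ |Real.logb ((p : ℕ) : ℝ) ‖α f p k‖|}.ncard : ℝ) ≤
          A * (((p : ℕ) : ℝ) ^ 2 * T) ^ (((n ^ 2 : ℕ) : ℝ) * (dens δ + ε))) ∧
      (n = 3 → (∀ f, ∑ i, μ f i = 0) → ∀ δ T : ℝ, 0 < δ →
        {f | ∃ k, |(μ f k).im - T| ≤ 1 ∧ δ ≤ |(μ f k).re|}.Finite ∧
        ({f | ∃ k, |(μ f k).im - T| ≤ 1 ∧ δ ≤ |(μ f k).re|}.ncard : ℝ) ≤ A * (1 + |T|) ^ (4 * (dens δ + ε))) :=
  Pool.Agent.N846.DT.main hn hε

end Pool.Agent.Results.MP_fa98d2_nt.DensityTheorem
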