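import Pool.Agent.N825.GL3.Eq5

/-!
# Spherical cusp forms on `PGL_3` with few tempered primes

Let `φ` be a spherical cusp form on `PGL_3` over `ℚ`, with Satake parameters `α_{i,p}`, Hecke eigenvalues
`λ(p) = ∑_i α_{i,p}`, and representation `π`. Let `c < 1` and suppose that `φ` has *few tempered primes*: the series
`∑ p^{-t}` over the primes at which `π_p` is tempered converges for all `t > c`; for example, there are only `O(x^c)` such
primes `p ≤ x`. This is not excluded at present. We show that `φ` is then a very rigid object: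

* `c ≥ 9/17`;
* for **all** Dirichlet characters `χ` the functions `L(s, π × χ)` and `L(s, π × π × χ)` are entire and have **no zeros
  in the half-plane `Re s > (1 + c)/2`**, and `L(s, π × π~ × χ) / L(s, χ)` has no zeros and no poles for `Re s > c`;
* there are cube roots of unity `ω_p` such that `∑_p |λ(p) + ω_p|² p^{-t} < ∞` for all `t > c`: with few exceptions the
  Hecke eigenvalues are very close to one of the three points `-ω`, `ω³ = 1`;
* the Hecke eigenvalues are **equidistributed** over these three points, in every residue class: for `0 < ε ≤ 1/2` and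
  `z³ = 1` the sum of `p^{-σ}` over the primes `p ≡ a mod q` with `|λ(p) + z| < ε` is
  `log (1 / (σ - 1)) / (3 φ(q)) + O(1)` as `σ → 1+`;
* `φ` is not self-dual.

In other words, for every spherical cusp form on `PGL_3` which does not have all these properties for a number `c < 1`
(for example: some `L(s, π × χ)` has a zero of real part `> (1 + c)/2`, or `|λ(p)³ + 1|` is not small for most primes, or
`φ` is self-dual) the number of the tempered primes `p ≤ x` is not `O(x^c)`. For all `φ` one has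
`∑_p |λ(p) + ω_p|² p^{-σ} ≤ 50 ∑_{π_p tempered} p^{-σ} + O(1)`.

Known before for such forms: infinitely many tempered primes (Ramakrishnan); bounds from below for their number with
exponents up to `9/17` (`SmallEigenvaluesControl`, `EveryScale` of this problem), and comparisons of the nontempered with
the tempered primes (`MP_8410ab_nt.TemperedMajority`).

The structure `CuspFormPGL3` lists what is used of `φ`: the properties in `SphericalCuspForm` (unitarity; absolute
convergence, continuation, growth and functional equation of `L(s, π × π~)`), the trivial central character, that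
`L(s, π × χ)` is entire and does not vanish at `s = 1` (Godement, Jacquet; Jacquet, Shalika), and that
`(s - 1) L(s, π × π × χ)` is entire (Jacquet, Piatetski-Shapiro, Shalika; Moeglin, Waldspurger).

The proof. A nontempered parameter is `(X u, u / X, u⁻²)` with `X > 1`, `|u| = 1`. So `|λ|² - 1 ≥ 0`, and
`|λ² + λ̄|² ≤ 8 (|λ|² - 1) |λ|²`, for all powers of the parameters. By Landau's lemma the series of
`log (L(s, π × π~) / ζ(s))` converges absolutely for `Re s > c`, so by the Cauchy-Schwarz inequality the series of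
`log (L(s, π × π × χ) L(s, π~ × χ))` converges absolutely for `Re s > (1 + c)/2`; both factors are holomorphic there, the
first one up to a pole at `s = 1`, which is excluded by the nonvanishing of the second one. As `L(s, π × χ)` has no zero
and no pole at `s = 1`, the sums `∑ ω_p χ(p) p^{-σ}` are bounded for all `χ`, and so are those with `ω̄_p`; the
equidistribution follows from this.
-/

set_option autoImplicit false

namespace Pool.Agent.Results.MP_fa98d2_nt.FewTemperedPrimes

open Pool.Agent.TH949.RES Pool.Agent.Y816.GL3R Pool.Agent.N825.GL3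

/-- the series `∑ p^{-t}` over the primes at which `π_p` is tempered converges for all `t > c` -/
def FewTempered (α : Nat.Primes → Fin 3 → ℂ) (c : ℝ) : Prop :=
  ∀ t : ℝ, c < t → Summable fun p : {p : Nat.Primes // ∀ i, ‖α p i‖ = 1} => ((p.1 : ℕ) : ℝ) ^ (-t)

/-- `E` is an entire function, equal to `exp (∑_p ∑_{k ≥ 1} χ(p)^k t(p, k) / (k p^{ks}))` for `Re s > 1`, without zeros in
the half-plane `Re s > b` -/
def IsZeroFree {q : ℕ} (χ : DirichletCharacter ℂ q) (t : Nat.Primes → ℕ → ℂ) (b : ℝ) (E : ℂ → ℂ) : Prop :=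
  Differentiable ℂ E ∧ (∀ s : ℂ, 1 < s.re → E s = Complex.exp (logE χ t s)) ∧ ∀ s : ℂ, b < s.re → E s ≠ 0

/-- **Spherical cusp forms on `PGL_3` with few tempered primes.** -/
theorem result (α : Nat.Primes → Fin 3 → ℂ) (μ : Fin 3 → ℂ) (h : CuspFormPGL3 α μ) :
    (∀ c C : ℝ, (∀ x : ℝ, 1 ≤ x → (({p : Nat.Primes | ((p : ℕ) : ℝ) ≤ x ∧ ∀ i, ‖α p i‖ = 1}.ncard : ℕ) : ℝ) ≤
      C * x ^ c) → FewTempered α c) ∧
    ∃ ω : Nat.Primes → ℂ, (∀ p, ω p ^ 3 = 1) ∧
      (∃ C : ℝ, ∀ σ : ℝ, 1 < σ → σ ≤ 2 →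
        (Summable fun p : Nat.Primes => ‖∑ i, α p i + ω p‖ ^ 2 * ((p : ℕ) : ℝ) ^ (-σ)) ∧
        ∑' p : Nat.Primes, ‖∑ i, α p i + ω p‖ ^ 2 * ((p : ℕ) : ℝ) ^ (-σ) ≤
          50 * ∑' p : {p : Nat.Primes // ∀ i, ‖α p i‖ = 1}, ((p.1 : ℕ) : ℝ) ^ (-σ) + C) ∧
      ∀ c : ℝ, c < 1 → FewTempered α c →
        9 / 17 ≤ c ∧
        (∀ t : ℝ, c < t → Summable fun p : Nat.Primes => (∑ i, (‖α p i‖ - 1) ^ 2) * ((p : ℕ) : ℝ) ^ (-t)) ∧
        (∀ t : ℝ, c < t → Summable fun p : Nat.Primes => ‖∑ i, α p i + ω p‖ ^ 2 * ((p : ℕ) : ℝ) ^ (-t)) ∧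
        (∀ (q : ℕ) [NeZero q] (χ : DirichletCharacter ℂ q),
          (∃ E : ℂ → ℂ, IsZeroFree χ (fun p k => ∑ i, α p i ^ k) ((1 + c) / 2) E) ∧
          (∃ H : ℂ → ℂ, IsZeroFree χ (fun p k => (∑ i, α p i ^ k) ^ 2) ((1 + c) / 2) H) ∧
          ∃ F : ℂ → ℂ, DifferentiableOn ℂ F {s | c < s.re} ∧ (∀ s : ℂ, c < s.re → F s ≠ 0) ∧
            ∀ s : ℂ, 1 < s.re → F s * DirichletCharacter.LFunction χ s =
              Complex.exp (logE χ (fun p k => ((‖∑ i, α p i ^ k‖ ^ 2 : ℝ) : ℂ)) s)) ∧
        (∀ (q : ℕ) [NeZero q] (a : (ZMod q)ˣ) (z : ℂ), z ^ 3 = 1 → ∀ ε : ℝ, 0 < ε → ε ≤ 1 / 2 →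
          ∃ C : ℝ, ∀ σ : ℝ, 1 < σ → σ ≤ 2 →
            |(∑' p : {p : Nat.Primes // ((p : ℕ) : ZMod q) = a ∧ ‖∑ i, α p i + z‖ < ε}, ((p.1 : ℕ) : ℝ) ^ (-σ)) -
              Real.log (1 / (σ - 1)) / (3 * q.totient)| ≤ C) ∧
        ¬ ∀ p, ∃ τ : Equiv.Perm (Fin 3), ∀ i, α p (τ i) = (α p i)⁻¹ := by
  refine ⟨fun c C hC => of_count hC, ?_⟩
  obtain ⟨ω, hω, hω1, hω2⟩ := roots h
  refine ⟨ω, hω, ?_, ?_⟩
  · refine density h.toSphericalCuspForm (A := 34) (B := 50) (by norm_num) (fun p => by positivity) fun p => ?_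
    by_cases hp : Tmp α p.1
    · have h1 : ind α p = 1 := by
        unfold ind
        rw [if_pos hp]
      rw [h1]
      linarith [hω1 p.1 hp, d1_ge (α := α) p]
    · have h1 := ind_nonneg α p
      have h2 := hω2 p.1 hp
      rw [d1_zero]
      linarith
  · intro c hc1 hc
    obtain ⟨h9, hd, hT, G, hG, hG1, hG2⟩ := landau3 h hc
    have hS : ∀ t : ℝ, c < t → Summable fun p : Nat.Primes => ‖∑ i, α p i + ω p‖ ^ 2 * ((p : ℕ) : ℝ) ^ (-t) :=
      fun t ht => summable_first (C := 34) (by norm_num) (fun p => by positivity)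
        (fun p hp => (hω1 p hp).trans (by norm_num)) hω2 hd hT ht
    refine ⟨h9, fun t ht => ?_, hS, fun q _ χ => ⟨?_, ?_, ?_⟩, fun q _ a z hz ε hε hε2 => ?_, ?_⟩
    · exact summable_first (C := 1) (by norm_num) (fun p => by positivity)
        (fun p hp => by rw [tmp_sum hp]; norm_num) (fun p hp => by rw [one_mul]; exact (local2 h hp).1) hd hT ht
    · obtain ⟨E, h1, h2, h3⟩ := nonvanishing' h χ hc1 hd hT
      exact ⟨E, h1, h2, h3⟩
    · obtain ⟨_, H, _, h1, _, h2, h3⟩ := nonvanishing h χ hc1 hd hT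
      exact ⟨H, h1, h2, fun s hs => (h3 s hs).2⟩
    · exact adjoint h.toSphericalCuspForm χ hd
    · exact equi_disc h hc1 hd hω hS a hz hε hε2
    · exact not_selfdual h hc1 hd hT hG hG1 hG2

end Pool.Agent.Results.MP_fa98d2_nt.FewTemperedPrimes
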