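import Mathlib
import Pool.Agent.N678.IH.Final

/-!
# The Ramanujan conjecture for forms on `PGL(2)` with integral Hecke eigenvalues

Let `π_1, ..., π_m` be spherical cusp forms on `PGL(2)`, or more generally cuspidal automorphic representations of `GL(2)`
over a number field `K`, which are not dihedral, tetrahedral or octahedral (spherical cusp forms on `PGL(2)` over `ℚ` never
are), and let `a_i(v)` be the normalised Hecke eigenvalues. By Kim and Shahidi each `π_{i,v}` is tempered for at least
`34/35` of the places `v`; so for `m ≥ 35` nothing is known about the places at which all `π_{i,v}` are tempered. Suppose that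
the polynomials `∏ (X - |a_i(v)|²)` have integral coefficients, e.g. that the `π_i` are the conjugates `π_σ` of one form `π`
with Hecke eigenvalues `a_v` in the ring of integers of a totally real or CM field `F` of degree `m`. Then

1. on average over `v` at most **`m/60`** of the `π_{i,v}` are not tempered;
2. on average over `v` at least `4m/17` of the `a_i(v)` are zero;
3. on average over `v` at least `37m/50` of the numbers `|a_i(v)|²` belong to `{0, 1, 2, 3, (3 ± √5)/2}`.

For the conjugates of one form, of any degree `m`, this means:

* **`a_v = 0` for at least `4/17` of the places `v`**;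
* **`a_v` is one of the thirteen numbers `0, ±1, ±√2, ±√3, (±1 ± √5)/2` (for totally real `F`) for at least `37/50` of the
  places, and all the conjugates `π_{σ,v}` are tempered at these places.**

There are no such `π` for `F = ℚ` (Sarnak); quadratic fields were studied by Brumley; for the totally real fields without
`√3` and `√5` there are no such `π` either, see `MP_a812b2_nt.IntegralEigenvalues`. Icosahedral representations are
examples for `F ∋ √5`, with frequency `1/4` for `a_v = 0`, and the first four moments of `|a_v|²` are also those of the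
distribution with the values `0, 1, 3` and the frequencies `1/3, 1/2, 1/6`.

`Family` (for a single form: `ι = Fin 1`) is what is used of the `π_i`; it is known for the representations which are
not dihedral, tetrahedral or octahedral: the representations `1`, `Ad π` and `A⁴ π = Sym⁴ π ⊗ ω^{-2}` are unitary
cuspidal representations of `GL(1)`, `GL(3)` and `GL(5)` (Gelbart and Jacquet; Kim; Kim and Shahidi), the local components
are unitary, and the Rankin-Selberg `L`-functions of pairs of these representations have the usual properties
(Jacquet, Piatetski-Shapiro, Shalika; Shahidi; Moeglin, Waldspurger).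

Proof: by the method of auxiliary functions (Smyth) for the trace problem for totally positive algebraic integers. For
example in 3 there is a polynomial `F(t)` of degree four with the mean value `-37/50` such that
`F(t) ≥ a log |t| + b log |t - 1| + c log |t - 2| + d log |t - 3| + e log |t² - 3t + 1|` for all `t ≥ 0` with constants
`a, ..., e > 0`, and with `F ≥ -1` at the exceptional points (on average for `(3 ± √5)/2`). If the `t_i` are the conjugates of an
algebraic integer, different from the exceptional points, then the product of the values of each of the polynomials has at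
least the absolute value `1`, so that `∑ F(t_i) ≥ 0`.
-/

set_option autoImplicit false

namespace Pool.Agent.Results.MP_fa98d2_nt.IntegralTraces

open NumberField IsDedekindDomain Pool.Agent.N678.PG Pool.Agent.N678.IH Pool.Agent.R398.AS

/-- **Integral Hecke eigenvalues and temperedness.** -/
theorem result {K : Type} [Field K] [NumberField K] {S : Finset (HeightOneSpectrum (𝓞 K))} {m : ℕ} (hm : 0 < m)
    {α : Fin m → HeightOneSpectrum (𝓞 K) → Fin 2 → ℂ} (h : ∀ i, Family S (fun _ : Fin 1 => α i)) :
    ((∀ v ∉ S, Integral α v) →
      MeanLe S (nontempered α) (1 / 60) ∧ MeanGe S (zeros α) (4 / 17) ∧ MeanGe S (special α) (37 / 50)) ∧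
    ∀ (F : Type) [Field F] [NumberField F] (c : F ≃+* F),
      (∀ (σ : F →+* ℂ) (x : F), (starRingEnd ℂ) (σ x) = σ (c x)) →
      ∀ (e : Fin m ≃ (F →+* ℂ)) (a : HeightOneSpectrum (𝓞 K) → 𝓞 F), (∀ v ∉ S, ∀ i, ∑ j, α i v j = e i (a v)) →
        MeanLe S (nontempered α) (1 / 60) ∧
        LowerDensityGe S (fun v => a v = 0) (4 / 17) ∧
        LowerDensityGe S (fun v => (∀ i j, ‖α i v j‖ = 1) ∧
          ((a v : F) * c (a v) = 0 ∨ (a v : F) * c (a v) = 1 ∨ (a v : F) * c (a v) = 2 ∨ (a v : F) * c (a v) = 3 ∨
            ((a v : F) * c (a v)) ^ 2 - 3 * ((a v : F) * c (a v)) + 1 = 0)) (37 / 50) := by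
  classical
  refine ⟨fun hint => ⟨nontempered_le hm h hint, zeros_ge hm h hint, special_ge hm h hint⟩, ?_⟩
  intro F _ _ c hc e a ha
  have hm' : (m : ℝ) ≠ 0 := by exact_mod_cast hm.ne'
  have hint : ∀ v ∉ S, Integral α v := fun v hv => integral_of_field hc e (ha v hv)
  refine ⟨nontempered_le hm h hint, ?_, ?_⟩
  · refine density_of (zeros_ge hm h hint) (fun v hv hz => ?_) (fun v hv hz => ?_)
    · unfold zeros
      rw [Finset.filter_true_of_mem fun i _ => by rw [ha v hv i, hz]; simp]
      simp [hm']
    · unfold zeros
      rw [Finset.filter_false_of_mem fun i _ => by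
        rw [ha v hv i, map_eq_zero]
        exact fun hh => hz (by exact_mod_cast hh)]
      simp
  · have key : ∀ v ∉ S, ∀ i, (‖∑ j, α i v j‖ ^ 2 = 0 ∨ ‖∑ j, α i v j‖ ^ 2 = 1 ∨ ‖∑ j, α i v j‖ ^ 2 = 2 ∨
        ‖∑ j, α i v j‖ ^ 2 = 3 ∨ ‖∑ j, α i v j‖ ^ 4 - 3 * ‖∑ j, α i v j‖ ^ 2 + 1 = 0) ↔
        ((a v : F) * c (a v) = 0 ∨ (a v : F) * c (a v) = 1 ∨ (a v : F) * c (a v) = 2 ∨ (a v : F) * c (a v) = 3 ∨
            ((a v : F) * c (a v)) ^ 2 - 3 * ((a v : F) * c (a v)) + 1 = 0) := fun v hv i => by
      have e0 := eq_of_field hc (e i) (ha v hv i) 0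
      have e1 := eq_of_field hc (e i) (ha v hv i) 1
      have e2 := eq_of_field hc (e i) (ha v hv i) 2
      have e3 := eq_of_field hc (e i) (ha v hv i) 3
      have e4 := gold_of_field hc (e i) (ha v hv i)
      unfold zz at e0 e1 e2 e3 e4
      rw [← pow_mul] at e4
      norm_num at e0 e1 e2 e3 e4
      norm_num
      rw [e0, e1, e2, e3, e4]
    refine LowerDensityGe.mono (P := fun v => (a v : F) * c (a v) = 0 ∨ (a v : F) * c (a v) = 1 ∨
      (a v : F) * c (a v) = 2 ∨ (a v : F) * c (a v) = 3 ∨
            ((a v : F) * c (a v)) ^ 2 - 3 * ((a v : F) * c (a v)) + 1 = 0) ?_ (fun v hv hz => ⟨fun i => ?_, hz⟩)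
    · refine density_of (special_ge hm h hint) (fun v hv hz => ?_) (fun v hv hz => ?_)
      · unfold special
        rw [Finset.filter_true_of_mem fun i _ => (key v hv i).2 hz]
        simp [hm']
      · unfold special
        rw [Finset.filter_false_of_mem fun i _ => fun hh => hz ((key v hv i).1 hh)]
        simp
    · by_contra hn
      have h4 := norm_of_nontempered (α := fun _ : Fin 1 => α i) (h i) 0 hv hn
      unfold zz at h4
      rcases (key v hv i).2 hz with h0 | h0 | h0 | h0 | h0
      · linarith
      · linarith
      · linarith
      · linarith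
      · have : ‖∑ j, α i v j‖ ^ 4 = (‖∑ j, α i v j‖ ^ 2) ^ 2 := by rw [← pow_mul]
        rw [this] at h0
        nlinarith

end Pool.Agent.Results.MP_fa98d2_nt.IntegralTraces
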