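import Pool.Agent.N846.AT.Rare

/-!
# MP_fa98d2_nt: almost all spherical cusp forms on PGL(n) are tempered at all small primes

The input is the effective (joint) Plancherel equidistribution of the Satake parameters of the
spherical cusp forms on `PGL(n)` (Matz and Templier), stated as a field of `SphericalForms`.
-/

set_option autoImplicit false

namespace Pool.Agent.Results.MP_fa98d2_nt.TemperedAtSmallPrimes

open Finset
open Pool.Agent.N846.AT (psum word Unitary Tempered pt dens mass pl)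

/-- `Form` is the set of the spherical cusp forms on `PGL(n)`, `upTo T` the finite set of those with
spectral parameter of size at most `T`, and `α φ p` are the Satake parameters of `φ` at the prime
`p`. `unitary`, `bound`: unitarity and the bound of Jacquet and Shalika; `equi`: the theorem of Matz
and Templier. The product of the parameters is one; this is not used. -/
structure SphericalForms (n : ℕ) (Form : Type) (upTo : ℝ → Finset Form)
    (α : Form → {p : ℕ // p.Prime} → Fin n → ℂ) : Prop where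
  unitary : ∀ T : ℝ, ∀ φ ∈ upTo T, ∀ p, Unitary (α φ p)
  bound : ∀ T : ℝ, ∀ φ ∈ upTo T, ∀ p : {p : ℕ // p.Prime}, ∀ i, ‖α φ p i‖ ≤ Real.sqrt (p : ℕ)
  equi : ∃ A C η : ℝ, 0 ≤ A ∧ 0 ≤ C ∧ 0 < η ∧ ∀ T : ℝ, 2 ≤ T →
    ∀ (P : Finset {p : ℕ // p.Prime}) (w : {p : ℕ // p.Prime} → List ℤ) (κ : ℕ),
    (∀ p ∈ P, (w p).sum = 0 ∧ ((w p).map (fun m => (m.natAbs : ℕ))).sum ≤ κ) →
    ‖∑ φ ∈ upTo T, ∏ p ∈ P, word (α φ p) (w p) -
        ((upTo T).card : ℂ) * ∏ p ∈ P, pl ((p : ℕ) : ℝ) (fun a : Fin n → ℂ => word a (w p))‖ ≤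
      C * (∏ p ∈ P, (n : ℝ) ^ (w p).length) * (∏ p ∈ P, ((p : ℕ) : ℝ)) ^ (A * (κ + 1)) *
        T ^ (-η) * (upTo T).card

open scoped Classical in
/-- For `0 < ε ≤ 1`, with constants depending on `n`, `ε`, `k` and the constants of `equi`:
1. for `k` different primes the proportion of the forms up to `T` that are not tempered at any of
them is at most `C (log (p_1 ... p_k) / log T) ^ ((3 - ε) k)`;
2. the proportion of the forms that are not tempered at `k` or more primes `p ≤ (log T) ^ (3 - ε)`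
is at most `C (log T) ^ (- ε k / 4)`;
3. for any finite set `P` of primes the mean number of the `p ∈ P` at which a form is not tempered
is at most `C ∑_{p ∈ P} (log p / log T) ^ (3 - ε)`;
4. all forms up to `T` outside a proportion `C (log T) ^ (- ε / 4)` are tempered at all primes
`p ≤ (log T) ^ (3 - ε)` and have parameters of size at most `exp (C (log p) ^ 2 / log T)` at every
prime `p`;
5. the proportion of the forms that are not tempered at any prime is at most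
`C exp (- c log T / log log T)`. -/
theorem result {n : ℕ} (hn : 2 ≤ n) {Form : Type} {upTo : ℝ → Finset Form}
    {α : Form → {p : ℕ // p.Prime} → Fin n → ℂ} (h : SphericalForms n Form upTo α) {ε : ℝ}
    (he0 : 0 < ε) (he1 : ε ≤ 1) :
    (∀ k : ℕ, 1 ≤ k → ∃ C : ℝ, 0 < C ∧ ∀ T : ℝ, 2 ≤ T → ∀ P : Finset {p : ℕ // p.Prime},
      P.card = k → (((upTo T).filter (fun φ => ∀ p ∈ P, ¬ Tempered (α φ p))).card : ℝ) ≤
        C * (Real.log (∏ p ∈ P, ((p : ℕ) : ℝ)) / Real.log T) ^ ((3 - ε) * k) * (upTo T).card) ∧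
    (∀ k : ℕ, 1 ≤ k → ∃ C : ℝ, 0 < C ∧ ∀ T : ℝ, 2 ≤ T →
      (((upTo T).filter (fun φ => ∃ P : Finset {p : ℕ // p.Prime}, P.card = k ∧ ∀ p ∈ P,
        ((p : ℕ) : ℝ) ≤ (Real.log T) ^ (3 - ε) ∧ ¬ Tempered (α φ p))).card : ℝ) ≤
        C * (Real.log T) ^ (-(ε * k / 4)) * (upTo T).card) ∧
    (∃ C : ℝ, 0 < C ∧ ∀ T : ℝ, 2 ≤ T → ∀ P : Finset {p : ℕ // p.Prime},
      ∑ φ ∈ upTo T, ((P.filter (fun p => ¬ Tempered (α φ p))).card : ℝ) ≤
        C * (∑ p ∈ P, (Real.log (p : ℕ) / Real.log T) ^ (3 - ε)) * (upTo T).card) ∧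
    (∃ C : ℝ, 0 < C ∧ ∀ T : ℝ, 2 ≤ T →
      (((upTo T).filter (fun φ => ∃ p : {p : ℕ // p.Prime},
        (((p : ℕ) : ℝ) ≤ (Real.log T) ^ (3 - ε) ∧ ¬ Tempered (α φ p)) ∨
          ∃ i, Real.exp (C * (Real.log (p : ℕ)) ^ 2 / Real.log T) < ‖α φ p i‖)).card : ℝ) ≤
        C * (Real.log T) ^ (-(ε / 4)) * (upTo T).card) ∧
    (∃ C c : ℝ, 0 < C ∧ 0 < c ∧ ∀ T : ℝ, 3 ≤ T →
      (((upTo T).filter (fun φ => ∀ p, ¬ Tempered (α φ p))).card : ℝ) ≤
        C * Real.exp (-(c * (Real.log T / Real.log (Real.log T)))) * (upTo T).card) := by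
  have hn1 : 1 ≤ n := by omega
  have hS := Pool.Agent.N846.AT.PlanK.leaves
  have hL := Pool.Agent.N846.AT.PlanSp.plan_gl hS hn1
  have hV := Pool.Agent.N846.AT.Rare.primes
  have hF : Pool.Agent.N846.AT.Gen.Family n (pl (n := n)) {p : ℕ // p.Prime} Form
    (fun p => (p : ℕ)) upTo α := ⟨h.unitary, h.equi⟩
  have hb : ∀ T : ℝ, ∀ φ ∈ upTo T, ∀ p : {p : ℕ // p.Prime}, ∀ i,
      ‖α φ p i‖ ≤ ((p : ℕ) : ℝ) ^ (1 / 2 : ℝ) := by
    intro T φ hφ p i
    rw [← Real.sqrt_eq_rpow]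
    exact h.bound T φ hφ p i
  refine ⟨fun k hk => ?_, fun k hk => ?_, ?_, ?_, ?_⟩
  · obtain ⟨C, hC, h1⟩ := Pool.Agent.N846.AT.Gen.several hS hn1 hL hV hF he0 he1 hk
    exact ⟨C, hC, fun T hT P hP => h1 T hT P hP _ (filter_subset _ _)
      (fun φ hφ => (mem_filter.1 hφ).2)⟩
  · exact Pool.Agent.N846.AT.Gen.small hS hn1 hL hV hF he0 he1 hk
  · exact Pool.Agent.N846.AT.Gen.one_place hS hn1 hL hV hF he0 he1
  · exact Pool.Agent.N846.AT.Gen.every hS Pool.Agent.N846.AT.newt hn1 hL hV hF (by norm_num) hb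
      he0 he1
  · obtain ⟨C, c, hC, hc, h1⟩ := Pool.Agent.N846.AT.Rare.rare hS hn1 hL hF
    exact ⟨C, c, hC, hc, fun T hT => h1 T hT _ (filter_subset _ _)
      (fun φ hφ => (mem_filter.1 hφ).2)⟩

end Pool.Agent.Results.MP_fa98d2_nt.TemperedAtSmallPrimes
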